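import Pool.Agent.Lib.MP_9cc147_pr.Cx.N.Neu
import Pool.Agent.Lib.MP_9cc147_pr.Cx.S1

/-! The counting bounds for the local configurations of one reblocking. -/

open scoped Classical Topology
open Finset Filter

noncomputable section
namespace Pool.Agent.Lib.MP_9cc147_pr.Cx.CN

theorem conn_pcs {R X : Finset P} {c : P → Sf} (h : X ∈ pcs R c) : Conn X := by
  obtain ⟨s, _, hs⟩ := mem_biUnion.1 h
  exact conn_comps hs

theorem cover {L s0 : ℕ} {D U : Finset P} {c : P → Sf} (hc : c ∈ loc L s0 D U) :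
    U.card ≤ (kind (reg L D U) c 1).card + ∑ X ∈ pcs (reg L D U) c, (X.image (par L)).card +
      ∑ X ∈ comps (bad (reg L D U) (red c)), (X.image (par L)).card := by
  have h := (mem_filter.1 hc).2.2
  set R := reg L D U
  have : img L s0 R c ⊆ (kind R c 1).image (par L) ∪ (pcs R c).biUnion (fun X => X.image (par L)) ∪
      (comps (bad R (red c))).biUnion fun X => X.image (par L) := by
    intro B hB
    obtain ⟨b, hb, rfl⟩ := mem_image.1 hB
    simp only [mem_union] at hb ⊢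
    rcases hb with ((hb | hb) | hb) | hb
    · exact .inl (.inl (mem_image_of_mem _ hb))
    · obtain ⟨hR, s, hs⟩ := mem_filter.1 hb
      have : b ∈ pol R (red c) s := mem_filter.2 ⟨hR, by simp [red, hs]⟩
      obtain ⟨X, hX, hbX⟩ := mem_comps this
      exact .inl (.inr (mem_biUnion.2 ⟨X, mem_biUnion.2 ⟨s, mem_univ _, hX⟩,
        mem_image_of_mem _ hbX⟩))
    · obtain ⟨X, hX, hbX⟩ := mem_comps hb
      exact .inr (mem_biUnion.2 ⟨X, hX, mem_image_of_mem _ hbX⟩)
    · obtain ⟨s, _, hs⟩ := mem_biUnion.1 hb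
      obtain ⟨X, hX, hbX⟩ := mem_biUnion.1 hs
      exact .inl (.inr (mem_biUnion.2 ⟨X, mem_biUnion.2 ⟨s, mem_univ _, (mem_filter.1 hX).1⟩,
        mem_image_of_mem _ hbX⟩))
  rw [h] at this
  refine (card_le_card this).trans ((card_union_le _ _).trans (add_le_add
    ((card_union_le _ _).trans (add_le_add card_image_le card_biUnion_le)) card_biUnion_le))

/-- cost of one polymer against the coarse blocks it meets -/
def w (L : ℕ) (Λ G : ℝ) (X : Finset P) : ℝ := Λ ^ (X.image (par L)).card * G⁻¹ ^ X.card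

theorem wt {L s0 : ℕ} {D U : Finset P} {c : P → Sf} (hc : c ∈ loc L s0 D U) {a p b G Λ : ℝ}
    (ha : 0 ≤ a) (hp : 0 ≤ p) (hb : 0 ≤ b) (hG : 1 ≤ G) (hΛ : 1 ≤ Λ) :
    Λ ^ U.card * aw (reg L D U) a p b G c ≤ (a * Λ) ^ (kind (reg L D U) c 1).card *
      (∏ X ∈ pcs (reg L D U) c, p * w L Λ G X) *
        ∏ X ∈ comps (bad (reg L D U) (red c)), b * w L Λ G X := by
  have h0 : 0 ≤ aw (reg L D U) a p b G c := by unfold aw; positivity
  refine (mul_le_mul_of_nonneg_right (pow_le_pow_right₀ hΛ (cover hc)) h0).trans (le_of_eq ?_)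
  have e : ∀ (t : ℝ) (S : Finset (Finset P)), ∏ X ∈ S, t * w L Λ G X =
      Λ ^ (∑ X ∈ S, (X.image (par L)).card) * ∏ X ∈ S, t * G⁻¹ ^ X.card := by
    intro t S
    rw [← prod_pow_eq_pow_sum, ← prod_mul_distrib]
    exact prod_congr rfl fun X _ => by unfold w; ring
  rw [e, e, aw, pow_add, pow_add, mul_pow]
  ring

theorem sum_bd {L s0 : ℕ} {D U : Finset P} {S : Finset (P → Sf)} (hS : S ⊆ loc L s0 D U)
    {f : (P → Sf) → ℝ} {Γ β t : ℝ} (hΓ : (13 : ℝ) ^ (9 * L ^ 2) ≤ Γ) (hβ : 0 < β) (ht : 0 ≤ t)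
    (h : ∀ c ∈ S, (Γ * β) ^ U.card * f c ≤ t) : ∑ c ∈ S, f c ≤ t * β⁻¹ ^ U.card := by
  have hΓ0 : 0 < Γ := lt_of_lt_of_le (by positivity) hΓ
  have h1 : ∑ c ∈ S, f c ≤ S.card • (t / (Γ * β) ^ U.card) :=
    sum_le_card_nsmul _ _ _ fun c hc => by
      rw [le_div_iff₀ (by positivity), mul_comm]; exact h c hc
  have h2 : (S.card : ℝ) ≤ Γ ^ U.card := by
    have : (S.card : ℝ) ≤ (13 ^ (9 * L ^ 2)) ^ U.card := by
      exact_mod_cast (card_le_card hS).trans (card_loc L s0 D U)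
    exact this.trans (pow_le_pow_left₀ (by positivity) hΓ _)
  rw [nsmul_eq_mul] at h1
  refine h1.trans ((mul_le_mul_of_nonneg_right h2 (by positivity)).trans (le_of_eq ?_))
  rw [mul_pow, inv_pow]
  field_simp

theorem core {L s0 m : ℕ} {U : Finset P} {a p b G Γ β δ K : ℝ} (hU : Pm m U) (hs : s0 ≤ 4)
    (hsL : s0 < L) (hm : s0 < m) (ha : 0 ≤ a) (hp : 0 ≤ p) (hb : 0 ≤ b) (ha' : a ≤ δ)
    (hp' : p ≤ δ) (hb' : b ≤ δ) (hG : 1 ≤ G) (hΓ : (13 : ℝ) ^ (9 * L ^ 2) ≤ Γ) (hβ : 1 ≤ β)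
    (hw : ∀ X, Conn X → s0 < X.card → 1000 * (Γ * β) ^ (X.image (par L)).card ≤ G ^ X.card)
    (hδ : 1000 * δ * (Γ * β) ^ 8 ≤ 1) (hK : (Γ * β) ^ 8 ≤ K) :
    (∀ s, ∑ c ∈ (loc0 L s0 (box m) U s).filter
      (fun c => live s0 (reg L (box m) U) c ∧ big s0 (reg L (box m) U) c),
        aw (reg L (box m) U) a p b G c ≤ p / 1000 * β⁻¹ ^ U.card) ∧
    (∀ s, ∑ c ∈ (loc0 L s0 (box m) U s).filter
      (fun c => live s0 (reg L (box m) U) c ∧ 2 ≤ nat (reg L (box m) U) c),
        aw (reg L (box m) U) a p b G c ≤ K * (a + p) ^ 2 * β⁻¹ ^ U.card) ∧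
    ∀ σ, ∑ c ∈ (loc1 L s0 (box m) U σ).filter (live s0 (reg L (box m) U)),
      aw (reg L (box m) U) a p b G c ≤
        (if Nn (box m) U σ then b / 1000 else K * b) * β⁻¹ ^ U.card := by
  have hΓ1 : 1 ≤ Γ := (one_le_pow₀ (by norm_num)).trans hΓ
  have hΛ : 1 ≤ Γ * β := one_le_mul_of_one_le_of_one_le hΓ1 hβ
  have hβ0 : 0 < β := by linarith
  set Λ := Γ * β with hΛe
  set R := reg L (box m) U with hR
  have hδ0 : 0 ≤ δ := ha.trans ha'
  have h4 : 1 ≤ Λ ^ 4 := one_le_pow₀ hΛ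
  have h14 : Λ ≤ Λ ^ 4 := le_self_pow₀ hΛ (by norm_num)
  have h8 : Λ ^ 8 = Λ ^ 4 * Λ ^ 4 := by ring
  have w0 : ∀ X, 0 ≤ w L Λ G X := fun X => by unfold w; positivity
  have wb : ∀ X, Conn X → s0 < X.card → w L Λ G X ≤ 1 / 1000 := by
    intro X h1 h2
    have := hw X h1 h2
    unfold w
    rw [inv_pow, ← div_eq_mul_inv, div_le_div_iff₀ (by positivity) (by norm_num)]
    linarith
  have wa : ∀ X, Conn X → w L Λ G X ≤ Λ ^ 4 := by
    intro X h1
    rcases lt_or_ge s0 X.card with h2 | h2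
    · exact (wb X h1 h2).trans (by linarith)
    · have e1 : Λ ^ (X.image (par L)).card ≤ Λ ^ 4 :=
        pow_le_pow_right₀ hΛ (card_image_le.trans (h2.trans hs))
      have e2 : G⁻¹ ^ X.card ≤ 1 := pow_le_one₀ (by positivity) (inv_le_one_of_one_le₀ hG)
      calc w L Λ G X ≤ Λ ^ 4 * 1 := mul_le_mul e1 e2 (by positivity) (by positivity)
        _ = Λ ^ 4 := mul_one _
  have pb : ∀ (t τ : ℝ) (S : Finset (Finset P)), 0 ≤ t → t ≤ τ → (∀ X ∈ S, Conn X) →
      ∏ X ∈ S, t * w L Λ G X ≤ (τ * Λ ^ 4) ^ S.card := by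
    intro t τ S h0 h1 hS
    rw [← prod_const]
    exact prod_le_prod (fun X _ => mul_nonneg h0 (w0 X)) fun X hX =>
      mul_le_mul h1 (wa X (hS X hX)) (w0 X) (h0.trans h1)
  refine ⟨fun s => ?_, fun s => ?_, fun σ => ?_⟩
  · refine sum_bd ((filter_subset _ _).trans (filter_subset _ _)) hΓ hβ0 (by positivity)
      fun c hc => ?_
    obtain ⟨hc0, _, hn, X, hX, hXs⟩ := mem_filter.1 hc
    refine (wt (mem_filter.1 hc0).1 ha hp hb hG hΛ).trans ?_
    have hpos : 1 ≤ (pcs R c).card := card_pos.2 ⟨X, hX⟩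
    unfold nat at hn
    have e1 : (kind R c 1).card = 0 := by omega
    have e2 : comps (bad R (red c)) = ∅ := card_eq_zero.1 (by omega)
    have e3 : pcs R c = {X} := eq_singleton_iff_unique_mem.2
      ⟨hX, fun Y hY => card_le_one.1 (by omega) Y hY X hX⟩
    rw [← hR, e1, e2, e3, pow_zero, prod_empty, prod_singleton, one_mul, mul_one]
    have := mul_le_mul_of_nonneg_left (wb X (conn_pcs hX) hXs) hp
    linarith
  · have hK0 : 0 ≤ K := le_trans (by positivity) hK
    refine sum_bd ((filter_subset _ _).trans (filter_subset _ _)) hΓ hβ0 (by positivity)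
      fun c hc => ?_
    obtain ⟨hc0, _, hn⟩ := mem_filter.1 hc
    obtain ⟨hc1, hl⟩ := mem_filter.1 hc0
    refine (wt hc1 ha hp hb hG hΛ).trans ?_
    have e2 : bad R (red c) = ∅ := by
      refine eq_empty_of_forall_notMem fun x hx => ?_
      obtain ⟨h1, h2⟩ := mem_filter.1 hx
      have := hl x h1
      rw [← lab_red, h2] at this
      simp [lab] at this
    unfold nat at hn
    rw [e2] at hn
    rw [← hR, e2]
    simp only [comps, image_empty, card_empty, add_zero, prod_empty, mul_one] at hn ⊢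
    have t1 : (a + p) * Λ ^ 4 ≤ 1 := by nlinarith [mul_nonneg hδ0 (zero_le_one.trans h4)]
    have t0 : 0 ≤ (a + p) * Λ ^ 4 := by positivity
    calc _ ≤ ((a + p) * Λ ^ 4) ^ (kind R c 1).card * ((a + p) * Λ ^ 4) ^ (pcs R c).card :=
          mul_le_mul (pow_le_pow_left₀ (by positivity)
            (mul_le_mul (by linarith) h14 (by positivity) (by positivity)) _)
            (pb p (a + p) _ hp (by linarith) fun X hX => conn_pcs hX)
            (prod_nonneg fun X _ => mul_nonneg hp (w0 X)) (by positivity)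
      _ ≤ ((a + p) * Λ ^ 4) ^ 2 := by
          rw [← pow_add]; exact pow_le_pow_of_le_one t0 t1 hn
      _ = Λ ^ 8 * (a + p) ^ 2 := by ring
      _ ≤ K * (a + p) ^ 2 := mul_le_mul_of_nonneg_right hK (by positivity)
  · have hK0 : 0 ≤ K := le_trans (by positivity) hK
    refine sum_bd ((filter_subset _ _).trans (filter_subset _ _)) hΓ hβ0
      (by split_ifs <;> positivity) fun c hc => ?_
    obtain ⟨hc1, ⟨y, hy⟩, hσ⟩ := mem_filter.1 (mem_filter.1 hc).1
    refine (wt hc1 ha hp hb hG hΛ).trans ?_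
    rw [← hR] at hy ⊢
    obtain ⟨Y, hY, -⟩ := mem_comps hy
    have t1 : δ * Λ ^ 4 ≤ 1 := by nlinarith [mul_nonneg hδ0 (zero_le_one.trans h4)]
    have t0 : 0 ≤ δ * Λ ^ 4 := by positivity
    have main : (a * Λ) ^ (kind R c 1).card * (∏ X ∈ pcs R c, p * w L Λ G X) *
        ∏ X ∈ comps (bad R (red c)), b * w L Λ G X ≤ b * w L Λ G Y * (δ * Λ ^ 4) ^
          ((kind R c 1).card + (pcs R c).card + ((comps (bad R (red c))).erase Y).card) := by
      rw [← mul_prod_erase _ _ hY, pow_add, pow_add]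
      have k1 : (a * Λ) ^ (kind R c 1).card ≤ (δ * Λ ^ 4) ^ (kind R c 1).card :=
        pow_le_pow_left₀ (by positivity) (mul_le_mul ha' h14 (by positivity) hδ0) _
      have k2 := pb p δ (pcs R c) hp hp' fun X hX => conn_pcs hX
      have k3 := pb b δ ((comps (bad R (red c))).erase Y) hb hb' fun X hX =>
        conn_comps (mem_of_mem_erase hX)
      have n2 : 0 ≤ ∏ X ∈ pcs R c, p * w L Λ G X := prod_nonneg fun X _ => mul_nonneg hp (w0 X)
      have n3 : 0 ≤ ∏ X ∈ (comps (bad R (red c))).erase Y, b * w L Λ G X :=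
        prod_nonneg fun X _ => mul_nonneg hb (w0 X)
      have n0 : 0 ≤ b * w L Λ G Y := mul_nonneg hb (w0 Y)
      calc _ = b * w L Λ G Y * ((a * Λ) ^ (kind R c 1).card * (∏ X ∈ pcs R c, p * w L Λ G X) *
            ∏ X ∈ (comps (bad R (red c))).erase Y, b * w L Λ G X) := by ring
        _ ≤ _ := mul_le_mul_of_nonneg_left (mul_le_mul (mul_le_mul k1 k2 n2 (by positivity)) k3 n3
            (by positivity)) n0
    refine main.trans ?_
    have wY := wa Y (conn_comps hY)
    have n0 : 0 ≤ b * w L Λ G Y := mul_nonneg hb (w0 Y)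
    generalize hn : (kind R c 1).card + (pcs R c).card + ((comps (bad R (red c))).erase Y).card = n
    have p1 : (δ * Λ ^ 4) ^ n ≤ 1 := pow_le_one₀ t0 t1
    split_ifs with hN
    · rcases Nat.eq_zero_or_pos n with rfl | hpos
      · rcases lt_or_ge s0 Y.card with h2 | h2
        · have := mul_le_mul_of_nonneg_left (wb Y (conn_comps hY) h2) hb
          rw [pow_zero]; linarith
        · exfalso
          have e0 : (comps (bad R (red c))).erase Y = ∅ := card_eq_zero.1 (by omega)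
          have hsub : bad R (red c) ⊆ Y := by
            intro x hx
            obtain ⟨X, hX, hxX⟩ := mem_comps hx
            by_contra hne
            have : X ∈ (comps (bad R (red c))).erase Y :=
              mem_erase.2 ⟨fun e => hne (e ▸ hxX), hX⟩
            rw [e0] at this
            exact notMem_empty _ this
          have hcv := cover hc1
          rw [← hR, ← add_sum_erase _ _ hY, e0, card_eq_zero.1 (by omega : (pcs R c).card = 0),
            sum_empty] at hcv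
          have := card_image_le (s := Y) (f := par L)
          exact hN.1 (neutral hU.1 hU.2 (by omega) ((card_le_card hsub).trans_lt (by omega))
            (mem_filter.1 hc1).2.1 hσ hN.2)
      · have p2 : (δ * Λ ^ 4) ^ n ≤ δ * Λ ^ 4 := pow_le_of_le_one t0 t1 hpos.ne'
        calc _ ≤ b * Λ ^ 4 * (δ * Λ ^ 4) :=
              mul_le_mul (mul_le_mul_of_nonneg_left wY hb) p2 (by positivity) (by positivity)
          _ = b * (δ * Λ ^ 8) := by ring
          _ ≤ b * (1 / 1000) := mul_le_mul_of_nonneg_left (by linarith) hb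
          _ = b / 1000 := by ring
    · calc _ ≤ b * Λ ^ 4 * 1 :=
            mul_le_mul (mul_le_mul_of_nonneg_left wY hb) p1 (by positivity) (by positivity)
        _ ≤ b * K := by
            rw [mul_one]
            exact mul_le_mul_of_nonneg_left ((pow_le_pow_right₀ hΛ (by norm_num)).trans hK) hb
        _ = K * b := mul_comm _ _

end Pool.Agent.Lib.MP_9cc147_pr.Cx.CN
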