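import Pool.Agent.Lib.MP_9cc147_pr.Cx.D0

/-! Geometry of polymers: components, sizes under reblocking, numbers of configurations. -/

open scoped Classical
open Finset

noncomputable section
namespace Pool.Agent.Lib.MP_9cc147_pr.Cx.CN

theorem nr_symm {k : ℕ} {a b : P} (h : nr k a b) : nr k b a :=
  ⟨by rw [abs_sub_comm]; exact h.1, by rw [abs_sub_comm]; exact h.2⟩

theorem lnk_symm {Y : Finset P} {a b : P} (h : lnk Y a b) : lnk Y b a :=
  ⟨h.2.1, h.1, nr_symm h.2.2⟩

theorem rtg_symm {Y : Finset P} {a b : P} (h : Relation.ReflTransGen (lnk Y) a b) :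
    Relation.ReflTransGen (lnk Y) b a := by
  induction h with
  | refl => exact .refl
  | tail _ h2 ih => exact .head (lnk_symm h2) ih

theorem conn_comp {Y : Finset P} {a : P} (ha : a ∈ Y) : Conn (comp Y a) := by
  have key : ∀ b, Relation.ReflTransGen (lnk Y) a b →
      Relation.ReflTransGen (lnk (comp Y a)) a b := by
    intro b hb
    induction hb with
    | refl => exact .refl
    | tail h1 h2 ih =>
      exact ih.tail ⟨mem_filter.2 ⟨h2.1, h1⟩, mem_filter.2 ⟨h2.2.1, h1.tail h2⟩, h2.2.2⟩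
  refine ⟨⟨a, mem_filter.2 ⟨ha, .refl⟩⟩, fun u hu v hv => ?_⟩
  exact (rtg_symm (key u (mem_filter.1 hu).2)).trans (key v (mem_filter.1 hv).2)

theorem conn_comps {Y X : Finset P} (h : X ∈ comps Y) : Conn X := by
  obtain ⟨a, ha, rfl⟩ := mem_image.1 h
  exact conn_comp ha

theorem mem_comps {Y : Finset P} {a : P} (ha : a ∈ Y) : ∃ X ∈ comps Y, a ∈ X :=
  ⟨comp Y a, mem_image_of_mem _ ha, mem_filter.2 ⟨ha, .refl⟩⟩

theorem ivt {X : Finset P} (f : P → ℤ) (hf : ∀ u v, nr 1 u v → f v ≤ f u + 1) {a b : P}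
    (ha : a ∈ X) (h : Relation.ReflTransGen (lnk X) a b) (k : ℤ) (h1 : f a ≤ k) (h2 : k ≤ f b) :
    ∃ x ∈ X, f x = k := by
  induction h with
  | refl => exact ⟨a, ha, le_antisymm h1 h2⟩
  | @tail u v _ huv ih =>
    by_cases hk : k ≤ f u
    · exact ih hk
    · have := hf u v huv.2.2
      exact ⟨v, huv.2.1, by omega⟩

theorem div_near {L : ℕ} (hL : 0 < L) {x y : ℤ} (h : x ≤ y + L) : x / L ≤ y / L + 1 := by
  have h0 : (0 : ℤ) < L := by exact_mod_cast hL
  have h1 : x / L ≤ (y + 1 * L) / L := Int.ediv_le_ediv h0 (by omega)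
  rwa [Int.add_mul_ediv_right _ _ h0.ne'] at h1

theorem card_nbr (S : Finset P) (c : P) (p : P → Prop) [DecidablePred p]
    (hp : ∀ B, p B → nr 1 B c) : (S.filter p).card ≤ 9 := by
  have : S.filter p ⊆ Icc (c.1 - 1) (c.1 + 1) ×ˢ Icc (c.2 - 1) (c.2 + 1) := by
    intro B hB
    obtain ⟨h1, h2⟩ := hp B (mem_filter.1 hB).2
    rw [abs_le] at h1 h2
    simp only [mem_product, mem_Icc]
    push_cast at h1 h2
    omega
  refine (card_le_card this).trans ?_
  rw [card_product, Int.card_Icc, Int.card_Icc]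
  have e1 : (c.1 + 1 + 1 - (c.1 - 1)).toNat = 3 := by omega
  have e2 : (c.2 + 1 + 1 - (c.2 - 1)).toNat = 3 := by omega
  rw [e1, e2]

theorem far_pair {L : ℕ} (hL : 0 < L) {X : Finset P} (h5 : 5 ≤ (X.image (par L)).card) :
    ∃ a ∈ X, ∃ b ∈ X, (L : ℤ) ≤ b.1 - a.1 ∨ (L : ℤ) ≤ b.2 - a.2 := by
  by_contra hc
  push Not at hc
  have hne : X.Nonempty := by
    rcases X.eq_empty_or_nonempty with rfl | h
    · simp at h5
    · exact h
  obtain ⟨a, ha, hma⟩ := exists_min_image X (fun x => x.1) hne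
  obtain ⟨b, hb, hmb⟩ := exists_min_image X (fun x => x.2) hne
  have h0 : (0 : ℤ) < L := by exact_mod_cast hL
  have : X.image (par L) ⊆ Icc (a.1 / L) (a.1 / L + 1) ×ˢ Icc (b.2 / L) (b.2 / L + 1) := by
    intro B hB
    obtain ⟨x, hx, rfl⟩ := mem_image.1 hB
    simp only [mem_product, mem_Icc, par]
    have h1 := (hc a ha x hx).1
    have h2 := (hc b hb x hx).2
    exact ⟨⟨Int.ediv_le_ediv h0 (hma x hx), div_near hL (by omega)⟩,
      Int.ediv_le_ediv h0 (hmb x hx), div_near hL (by omega)⟩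
  have h4 := card_le_card this
  rw [card_product, Int.card_Icc, Int.card_Icc] at h4
  have e1 : (a.1 / L + 1 + 1 - a.1 / L).toNat = 2 := by omega
  have e2 : (b.2 / L + 1 + 1 - b.2 / L).toNat = 2 := by omega
  rw [e1, e2] at h4
  omega

theorem geo {L : ℕ} (hL : 36 ≤ L) {X : Finset P} (hX : Conn X) (h5 : 5 ≤ X.card) :
    5 * (X.image (par L)).card ≤ 4 * X.card := by
  by_cases hu : (X.image (par L)).card ≤ 4
  · omega
  obtain ⟨a0, ha0, b0, hb0, hab⟩ := far_pair (L := L) (X := X) (by omega) (by omega)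
  have hL' : (36 : ℤ) ≤ L := by exact_mod_cast hL
  have key : (X.image (par L)).card * 18 ≤ X.card * 9 := by
    refine card_mul_le_card_mul (fun B x => nr 1 B (par L x)) (fun B hB => ?_) (fun x _ => ?_)
    · obtain ⟨a, ha, rfl⟩ := mem_image.1 hB
      let f : P → ℤ := fun x => max |x.1 - a.1| |x.2 - a.2|
      have hf : ∀ u v, nr 1 u v → f v ≤ f u + 1 := by
        intro u v h
        obtain ⟨h1, h2⟩ := h
        simp only [f]
        push_cast at h1 h2
        rw [abs_le] at h1 h2
        simp only [abs_eq_max_neg]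
        omega
      have hb : ∃ b ∈ X, 18 ≤ f b := by
        by_contra hc
        push Not at hc
        have h1 := hc a0 ha0
        have h2 := hc b0 hb0
        simp only [f, abs_eq_max_neg] at h1 h2
        omega
      obtain ⟨b, hb, hfb⟩ := hb
      have hsub : Ico (0 : ℤ) 18 ⊆ (X.bipartiteAbove (fun B x => nr 1 B (par L x)) (par L a)).image f := by
        intro k hk
        rw [mem_Ico] at hk
        obtain ⟨x, hx, hfx⟩ := ivt f hf ha (hX.2 a ha b hb) k (by simp [f, hk.1]) (by omega)
        refine mem_image.2 ⟨x, ?_, hfx⟩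
        rw [mem_bipartiteAbove]
        refine ⟨hx, ?_⟩
        simp only [f, abs_eq_max_neg] at hfx
        have d1 := div_near (L := L) (by omega) (x := x.1) (y := a.1) (by omega)
        have d2 := div_near (L := L) (by omega) (x := a.1) (y := x.1) (by omega)
        have d3 := div_near (L := L) (by omega) (x := x.2) (y := a.2) (by omega)
        have d4 := div_near (L := L) (by omega) (x := a.2) (y := x.2) (by omega)
        simp only [nr, par, abs_le]
        push_cast
        omega
      have := (card_le_card hsub).trans card_image_le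
      simpa using this
    · exact card_nbr _ (par L x) _ fun B h => h
  omega

theorem card_cell (L : ℕ) (B : P) : (cell L B).card = L ^ 2 := by
  rw [cell, card_product, Int.card_Ico, Int.card_Ico]
  have e1 : ((B.1 + 1) * L - B.1 * L).toNat = L := by
    rw [show (B.1 + 1) * L - B.1 * L = (L : ℤ) by ring]; simp
  have e2 : ((B.2 + 1) * L - B.2 * L).toNat = L := by
    rw [show (B.2 + 1) * L - B.2 * L = (L : ℤ) by ring]; simp
  rw [e1, e2, sq]

theorem card_under (L : ℕ) (U : Finset P) : (under L U).card ≤ L ^ 2 * U.card := by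
  refine card_biUnion_le.trans ?_
  simp [card_cell, mul_comm]

theorem card_near (D U : Finset P) : (near 1 D U).card ≤ 9 * U.card := by
  have : near 1 D U ⊆ U.biUnion fun a => D.filter fun b => nr 1 a b := by
    intro b hb
    obtain ⟨h1, a, ha, h2⟩ := mem_filter.1 hb
    exact mem_biUnion.2 ⟨a, ha, mem_filter.2 ⟨h1, h2⟩⟩
  refine (card_le_card this).trans (card_biUnion_le.trans ?_)
  rw [mul_comm, ← smul_eq_mul, ← sum_const]
  exact sum_le_sum fun a _ => card_nbr _ a _ fun B h => nr_symm h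

theorem card_loc (L s0 : ℕ) (D U : Finset P) :
    (loc L s0 D U).card ≤ (13 ^ (9 * L ^ 2)) ^ U.card := by
  refine (card_filter_le _ _).trans (card_image_le.trans ?_)
  have : (univ : Finset Sf).card = 13 := by simp
  rw [@card_pi _ _ (fun a b => Classical.propDecidable (a = b)), prod_const, ← pow_mul, this]
  refine Nat.pow_le_pow_right (by norm_num) ((card_under _ _).trans ?_)
  have := card_near D U
  nlinarith [Nat.zero_le (L ^ 2)]

end Pool.Agent.Lib.MP_9cc147_pr.Cx.CN
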