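import Pool.Agent.Lib.MP_9cc147_pr.Cx.N.Geo

/-! A local configuration with few bad blocks has constant boundary data. -/

open scoped Classical
open Finset

noncomputable section
namespace Pool.Agent.Lib.MP_9cc147_pr.Cx.CN

theorem free_res {L : ℕ} (Y : Finset P) (f : P → ℤ) (hY : Y.card < L) :
    ∃ i : ℤ, 0 ≤ i ∧ i < L ∧ ∀ y ∈ Y, f y % L ≠ i := by
  have h : (Y.image fun y => f y % L).card < (Ico (0 : ℤ) L).card := by
    rw [Int.card_Ico]
    have := card_image_le (s := Y) (f := fun y => f y % L)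
    simp only [sub_zero, Int.toNat_natCast]
    omega
  obtain ⟨i, hi, hn⟩ := exists_mem_notMem_of_card_lt_card h
  rw [mem_Ico] at hi
  exact ⟨i, hi.1, hi.2, fun y hy e => hn (mem_image.2 ⟨y, hy, e⟩)⟩

theorem lab_red (c : P → Sf) (b : P) : lab (red c b) = lab (c b) := by
  unfold red lab
  cases c b <;> rfl

theorem bdry_ne {m : ℕ} {U : Finset P} (hU : U ⊆ box m) (hne : U.Nonempty) (hm : U.card < m) :
    (bdry (box m) U).Nonempty := by
  by_contra hc
  rw [not_nonempty_iff_eq_empty, bdry, sdiff_eq_empty_iff_subset] at hc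
  obtain ⟨B, hB⟩ := hne
  have hBD := hU hB
  simp only [box, mem_product, mem_Ico] at hBD
  have step : ∀ x y : ℤ, (x, B.2) ∈ U → 0 ≤ y → y < m → |x - y| ≤ 1 → (y, B.2) ∈ U := by
    intro x y hx h0 h1 h2
    refine hc (mem_filter.2 ⟨?_, _, hx, by simpa using h2, by simp⟩)
    simp only [box, mem_product, mem_Ico]
    exact ⟨⟨h0, h1⟩, hBD.2⟩
  have up : ∀ t : ℕ, B.1 + t < m → (B.1 + t, B.2) ∈ U := by
    intro t
    induction t with
    | zero => intro _; simpa using hB
    | succ t ih =>
      intro h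
      push_cast at h ⊢
      exact step _ _ (ih (by omega)) (by omega) h (by rw [abs_le]; omega)
  have dn : ∀ t : ℕ, 0 ≤ B.1 - t → (B.1 - t, B.2) ∈ U := by
    intro t
    induction t with
    | zero => intro _; simpa using hB
    | succ t ih =>
      intro h
      push_cast at h ⊢
      exact step _ _ (ih (by omega)) h (by omega) (by rw [abs_le]; omega)
  have : Ico (0 : ℤ) m ⊆ U.image Prod.fst := by
    intro x hx
    rw [mem_Ico] at hx
    refine mem_image.2 ⟨(x, B.2), ?_, rfl⟩
    rcases le_total B.1 x with h | h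
    · have := up (x - B.1).toNat (by omega)
      rwa [show B.1 + ((x - B.1).toNat : ℤ) = x by omega] at this
    · have := dn (B.1 - x).toNat (by omega)
      rwa [show B.1 - ((B.1 - x).toNat : ℤ) = x by omega] at this
  have h2 := (card_le_card this).trans card_image_le
  rw [Int.card_Ico] at h2
  simp only [sub_zero, Int.toNat_natCast] at h2
  omega

theorem neutral {L m : ℕ} {U : Finset P} {c : P → Sf} {σ : P → Option Lab} (hU : U ⊆ box m)
    (hC : Conn U) (hm : U.card < m) (hY : (bad (reg L (box m) U) (red c)).card < L)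
    (hv : valid (reg L (box m) U) (red c))
    (hσ : ∀ b ∈ under L (bdry (box m) U), lab (c b) = σ (par L b))
    (h0 : ∀ b, b ∉ bdry (box m) U → σ b = none) : Neu (box m) U σ := by
  obtain ⟨i, hi0, hi1, hi⟩ := free_res _ Prod.fst hY
  obtain ⟨j, hj0, hj1, hj⟩ := free_res _ Prod.snd hY
  have hL : (0 : ℤ) < L := by omega
  set R := reg L (box m) U with hR
  set N := near 1 (box m) U with hN
  have good : ∀ b ∈ R, (b.1 % L = i ∨ b.2 % L = j) → ∃ s, lab (red c b) = some s := by
    intro b hb h
    have hn : red c b ≠ none := fun e => by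
      have hb' : b ∈ bad R (red c) := mem_filter.2 ⟨hb, e⟩
      rcases h with h | h
      · exact hi b hb' h
      · exact hj b hb' h
    cases hr : red c b with
    | none => exact absurd hr hn
    | some x => exact ⟨x.1, rfl⟩
  have step : ∀ a ∈ R, ∀ b ∈ R, (a.1 % L = i ∨ a.2 % L = j) → (b.1 % L = i ∨ b.2 % L = j) →
      nr 1 a b → lab (red c a) = lab (red c b) := by
    intro a ha b hb h1 h2 h
    obtain ⟨s, hs⟩ := good a ha h1
    obtain ⟨t, ht⟩ := good b hb h2
    rw [hs, ht, (hv a ha b hb h).1 s t hs ht]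
  have md : ∀ x k : ℤ, 0 ≤ k → k < L → (x * L + k) % L = k := by
    intro x k h1 h2
    rw [add_comm, Int.add_mul_emod_self_right, Int.emod_eq_of_lt h1 h2]
  have dv : ∀ x k : ℤ, 0 ≤ k → k < L → (x * L + k) / L = x := by
    intro x k h1 h2
    rw [add_comm, Int.add_mul_ediv_right _ _ hL.ne', Int.ediv_eq_zero_of_lt h1 h2, zero_add]
  have inC : ∀ (B : P) (k l : ℤ), 0 ≤ k → k < L → 0 ≤ l → l < L →
      (B.1 * L + k, B.2 * L + l) ∈ cell L B := by
    intro B k l h1 h2 h3 h4
    simp only [cell, mem_product, mem_Ico, add_mul, one_mul]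
    omega
  have inR : ∀ B ∈ N, ∀ k l : ℤ, 0 ≤ k → k < L → 0 ≤ l → l < L →
      (B.1 * L + k, B.2 * L + l) ∈ R := fun B hB k l h1 h2 h3 h4 =>
    mem_biUnion.2 ⟨B, hB, inC B k l h1 h2 h3 h4⟩
  let z : P → Option Lab := fun B => lab (red c (B.1 * L + i, B.2 * L + j))
  have hor : ∀ x y : ℤ, (x, y) ∈ N → (x + 1, y) ∈ N → z (x, y) = z (x + 1, y) := by
    intro x y h1 h2
    have hin : ∀ t : ℤ, 0 ≤ t → t ≤ L → (x * L + i + t, y * L + j) ∈ R := by
      intro t t0 t1
      by_cases h : i + t < L
      · have := inR _ h1 (i + t) j (by omega) h hj0 hj1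
        rwa [← add_assoc] at this
      · have := inR _ h2 (i + t - L) j (by omega) (by omega) hj0 hj1
        rwa [show ((x + 1, y) : P).1 * L + (i + t - L) = x * L + i + t by ring] at this
    have : ∀ t : ℕ, t ≤ L → z (x, y) = lab (red c (x * L + i + t, y * L + j)) := by
      intro t
      induction t with
      | zero => intro _; simp [z]
      | succ t ih =>
        intro h
        rw [ih (by omega)]
        refine step _ (hin t (by omega) (by omega)) _ (hin (t + 1 : ℕ) (by omega) (by omega))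
          (.inr (md y j hj0 hj1)) (.inr (md y j hj0 hj1)) ⟨?_, by simp⟩
        push_cast
        rw [abs_le]; omega
    rw [this L le_rfl]
    simp only [z]
    rw [show x * L + i + L = (x + 1) * L + i by ring]
  have ver : ∀ x y : ℤ, (x, y) ∈ N → (x, y + 1) ∈ N → z (x, y) = z (x, y + 1) := by
    intro x y h1 h2
    have hin : ∀ t : ℤ, 0 ≤ t → t ≤ L → (x * L + i, y * L + j + t) ∈ R := by
      intro t t0 t1
      by_cases h : j + t < L
      · have := inR _ h1 i (j + t) hi0 hi1 (by omega) h
        rwa [← add_assoc] at this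
      · have := inR _ h2 i (j + t - L) hi0 hi1 (by omega) (by omega)
        rwa [show ((x, y + 1) : P).2 * L + (j + t - L) = y * L + j + t by ring] at this
    have : ∀ t : ℕ, t ≤ L → z (x, y) = lab (red c (x * L + i, y * L + j + t)) := by
      intro t
      induction t with
      | zero => intro _; simp [z]
      | succ t ih =>
        intro h
        rw [ih (by omega)]
        refine step _ (hin t (by omega) (by omega)) _ (hin (t + 1 : ℕ) (by omega) (by omega))
          (.inl (md x i hi0 hi1)) (.inl (md x i hi0 hi1)) ⟨by simp, ?_⟩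
        push_cast
        rw [abs_le]; omega
    rw [this L le_rfl]
    simp only [z]
    rw [show y * L + j + L = (y + 1) * L + j by ring]
  have adj : ∀ B ∈ U, ∀ B' ∈ box m, nr 1 B B' → z B = z B' := by
    rintro ⟨x, y⟩ hB ⟨x', y'⟩ hB' h
    have hD := hU hB
    have n1 : (x, y) ∈ N := mem_filter.2 ⟨hD, _, hB, by simp, by simp⟩
    have n3 : (x', y') ∈ N := mem_filter.2 ⟨hB', _, hB, h⟩
    have n2 : (x', y) ∈ N := mem_filter.2
      ⟨mem_product.2 ⟨(mem_product.1 hB').1, (mem_product.1 hD).2⟩, _, hB, h.1, by simp⟩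
    obtain ⟨h1, h2⟩ := h
    simp only [abs_le] at h1 h2
    push_cast at h1 h2
    have e1 : z (x, y) = z (x', y) := by
      rcases (by omega : x' = x ∨ x' = x + 1 ∨ x = x' + 1) with e | e | e
      · rw [e]
      · subst e; exact hor _ _ n1 n2
      · subst e; exact (hor _ _ n2 n1).symm
    have e2 : z (x', y) = z (x', y') := by
      rcases (by omega : y' = y ∨ y' = y + 1 ∨ y = y' + 1) with e | e | e
      · rw [e]
      · subst e; exact ver _ _ n2 n3
      · subst e; exact (ver _ _ n3 n2).symm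
    exact e1.trans e2
  obtain ⟨B0, hB0⟩ := hC.1
  have all : ∀ B, Relation.ReflTransGen (lnk U) B0 B → z B0 = z B := by
    intro B h
    induction h with
    | refl => rfl
    | tail _ h2 ih => exact ih.trans (adj _ h2.1 _ (hU h2.2.1) h2.2.2)
  obtain ⟨s, hs⟩ := good _ (inR B0 (mem_filter.2 ⟨hU hB0, _, hB0, by simp, by simp⟩) i j hi0 hi1
    hj0 hj1) (.inl (md _ i hi0 hi1))
  refine ⟨bdry_ne hU hC.1 hm, s, funext fun B' => ?_⟩
  unfold cst
  split_ifs with hb
  · obtain ⟨hD, B, hB, hn⟩ := mem_filter.1 (mem_sdiff.1 hb).1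
    have e := hσ _ (mem_biUnion.2 ⟨B', hb, inC B' i j hi0 hi1 hj0 hj1⟩)
    have e' : par L (B'.1 * L + i, B'.2 * L + j) = B' := by
      simp only [par, dv _ i hi0 hi1, dv _ j hj0 hj1]
    rw [e', ← lab_red] at e
    rw [← e, ← hs]
    exact ((all B (hC.2 _ hB0 _ hB)).trans (adj B hB B' hD hn)).symm
  · exact h0 B' hb

end Pool.Agent.Lib.MP_9cc147_pr.Cx.CN
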