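import Pool.Agent.Lib.MP_9cc147_pr.Cx.N.Cnt
import Pool.Agent.Lib.MP_9cc147_pr.Cx.K0

/-! The choice of the constants in the counting bounds. -/

open scoped Classical Topology
open Finset Filter

noncomputable section
namespace Pool.Agent.Lib.MP_9cc147_pr.Cx

theorem t_cnt : S_cnt := by
  let Γ : ℕ → ℝ := fun L => 13 ^ (9 * L ^ 2)
  have hΓ : ∀ L, 1 ≤ Γ L := fun L => one_le_pow₀ (by norm_num)
  filter_upwards [fp_L 36, fp_A fun L => 16 ^ 5 * (16000 * Γ L) ^ 4,
    fp_C fun L A _ _ => ((Γ L * (16 * A)) ^ 8) ^ 2,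
    fp_ε (fun L A _ _ C => 1 / (1000 * (Γ L * (16 * A)) ^ 8 * |C| + 1)) fun L A _ _ C => by
      positivity] with q hL hA hC hε
  intro L s0 G hcase m U a p b hm hU ha hp hb ha' hp' hb'
  have g1 := hΓ q.L
  have g2 : 16000 * Γ q.L ≤ (16000 * Γ q.L) ^ 4 := le_self_pow₀ (by linarith) (by norm_num)
  have hA1 : 16 ≤ q.A := by nlinarith
  have hβ : 1 ≤ 16 * q.A := by linarith
  have hC0 : 0 ≤ q.C := le_trans (by positivity) hC
  have hK : (Γ q.L * (16 * q.A)) ^ 8 ≤ Real.sqrt q.C := Real.le_sqrt_of_sq_le hC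
  have hδ : 1000 * (q.C * q.ε) * (Γ q.L * (16 * q.A)) ^ 8 ≤ 1 := by
    have h := hε.2
    rw [le_div_iff₀ (by positivity), abs_of_nonneg hC0] at h
    nlinarith [hε.1]
  have hΛ : 1 ≤ Γ q.L * (16 * q.A) := one_le_mul_of_one_le_of_one_le g1 hβ
  have pw : ∀ (x : ℝ) (u : ℕ), 0 ≤ x → 1 ≤ u → 1000 * x ^ u ≤ (1000 * x) ^ u := by
    intro x u hx hu
    rw [mul_pow]
    exact mul_le_mul_of_nonneg_right (le_self_pow₀ (by norm_num) (by omega)) (by positivity)
  rcases hcase with ⟨rfl, rfl, rfl⟩ | ⟨rfl, rfl, rfl⟩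
  · have hG : 1 ≤ q.A / 16 := by linarith
    refine CN.core hU le_rfl (by omega) (by omega) ha hp hb ha' hp' hb' hG le_rfl hβ
      (fun X hX h => ?_) hδ hK
    have hu : 1 ≤ (X.image (par q.L)).card := card_pos.2 (hX.1.image _)
    have hg := CN.geo hL.2 hX h
    refine (pw _ _ (by linarith) hu).trans
      (le_of_pow_le_pow_left₀ (n := 4) (by norm_num) (by positivity) ?_)
    have e : (1000 * (Γ q.L * (16 * q.A))) ^ 4 ≤ (q.A / 16) ^ 5 := by
      have : (16000 * Γ q.L) ^ 4 ≤ q.A / 16 ^ 5 := by rw [le_div_iff₀ (by positivity)]; linarith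
      calc _ = (16000 * Γ q.L) ^ 4 * q.A ^ 4 := by ring
        _ ≤ q.A / 16 ^ 5 * q.A ^ 4 := mul_le_mul_of_nonneg_right this (by positivity)
        _ = _ := by ring
    calc _ = ((1000 * (Γ q.L * (16 * q.A))) ^ 4) ^ (X.image (par q.L)).card := by
          rw [← pow_mul, ← pow_mul, mul_comm 4]
      _ ≤ ((q.A / 16) ^ 5) ^ (X.image (par q.L)).card := pow_le_pow_left₀ (by positivity) e _
      _ ≤ _ := by
          rw [← pow_mul, ← pow_mul]
          exact pow_le_pow_right₀ hG (by omega)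
  · have hG : 1 ≤ q.A ^ 2 / 16 := by nlinarith
    have h1 : (13 : ℝ) ^ (9 * 1 ^ 2) ≤ Γ q.L :=
      pow_le_pow_right₀ (by norm_num) (Nat.mul_le_mul_left _ (Nat.pow_le_pow_left (by omega) _))
    refine CN.core hU (by norm_num) (by norm_num) (by omega) ha hp hb ha' hp' hb' hG h1 hβ
      (fun X hX h => ?_) hδ hK
    have hu : 1 ≤ (X.image (par 1)).card := card_pos.2 (hX.1.image _)
    have e : 1000 * (Γ q.L * (16 * q.A)) ≤ q.A ^ 2 / 16 := by
      have : 256000 * Γ q.L ≤ q.A := by nlinarith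
      nlinarith
    exact (pw _ _ (by linarith) hu).trans ((pow_le_pow_left₀ (by positivity) e _).trans
      (pow_le_pow_right₀ hG card_image_le))

end Pool.Agent.Lib.MP_9cc147_pr.Cx
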